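import Pool.Agent.H38.WT.Targets

/-!
Row `STP` of the board `wt_modules` (problem MP_0cb3c0_co): the step.
-/

set_option autoImplicit false

noncomputable section

namespace Pool.Agent.H4.WT

open Pool.Agent.H38.WT

variable {m ℓ : ℕ} {F : Set (Set (Fin m))} {j : Fin m} {K : Set (Fin m)}
  {σ : Equiv.Perm (Fin m)}

theorem symm_fix (hσ : ∀ x, x ∉ K ∩ {x | x ≤ j} → σ x = x) :
    ∀ x, x ∉ K ∩ {x | x ≤ j} → σ.symm x = x := by
  intro x hx
  rw [Equiv.symm_apply_eq]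
  exact (hσ x hx).symm

theorem mem_C (hσ : ∀ x, x ∉ K ∩ {x | x ≤ j} → σ x = x) {x : Fin m}
    (hx : x ∈ K ∩ {x | x ≤ j}) : σ x ∈ K ∩ {x | x ≤ j} := by
  by_contra h
  have h1 := hσ _ h
  have h2 : σ x = x := σ.injective h1
  rw [h2] at h
  exact h hx

theorem img_fix (hσ : ∀ x, x ∉ K ∩ {x | x ≤ j} → σ x = x) {S : Set (Fin m)}
    (hS : K ⊆ S ∨ Disjoint S K) : σ '' S = S := by
  have hs := symm_fix hσ
  ext z
  rw [Equiv.image_eq_preimage_symm, Set.mem_preimage]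
  by_cases hz : z ∈ K ∩ {x | x ≤ j}
  · have h1 : σ.symm z ∈ K ∩ {x | x ≤ j} := mem_C hs hz
    rcases hS with h | h
    · exact ⟨fun _ => h hz.1, fun _ => h h1.1⟩
    · exact ⟨fun h2 => absurd h1.1 (Set.disjoint_left.1 h h2),
        fun h2 => absurd hz.1 (Set.disjoint_left.1 h h2)⟩
  · rw [hs z hz]

/-- Configurations whose two labels are not both in `K`. -/
theorem step (h2 : T_GUN) (h4 : T_GI) (hm : m + 3 ≤ 2 * ℓ) (hF : CF F) (hK : K ∈ F)
    (hg : Good ℓ F j K) (hσ : ∀ x, x ∉ K ∩ {x | x ≤ j} → σ x = x)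
    {G' G : Set (Fin m)} {x y : Fin m} (hG' : G' ∈ F) (hG : G ∈ F) (hsub : G' ⊆ G)
    (hx : x ∈ G') (hy : y ∈ G) (hy' : y ∉ G') (hgy : Good ℓ F y G)
    (hn : ¬ (x ∈ K ∧ y ∈ K)) :
    ∃ H' ∈ img σ F, ∃ H ∈ img σ F, H' ⊆ H ∧ x ∈ H' ∧ y ∈ H ∧ y ∉ H' ∧
      Good ℓ (img σ F) y H := by
  have hcov : G ∪ K ≠ Set.univ := h2 m ℓ F y j G K (by omega) hgy hg
  have hcov' : G' ∪ K ≠ Set.univ := by
    intro h
    apply hcov
    rw [Set.eq_univ_iff_forall] at h ⊢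
    intro z
    rcases h z with h1 | h1
    · exact Or.inl (hsub h1)
    · exact Or.inr h1
  have hgood : ∀ (hGK : K ⊆ G ∨ Disjoint G K), G ∈ img σ F ∧ Good ℓ (img σ F) y G := by
    intro hGK
    have e := img_fix hσ hGK
    refine ⟨⟨G, hG, e.symm⟩, ?_⟩
    have := h4 m ℓ F j y K G σ hm hF hK hg hσ hG hgy
    rwa [e] at this
  have hmemG' : ∀ (hGK : K ⊆ G' ∨ Disjoint G' K), G' ∈ img σ F := by
    intro hGK
    exact ⟨G', hG', (img_fix hσ hGK).symm⟩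
  by_cases hyK : y ∈ K
  · have hxK : x ∉ K := fun h => hn ⟨h, hyK⟩
    have hKG : K ⊆ G := by
      rcases hF.cross G hG K hK with h | h | h | h
      · exact absurd (h (hsub hx)) hxK
      · exact h
      · exact absurd hyK (Set.disjoint_left.1 h hy)
      · exact absurd h hcov
    have hG'K : Disjoint G' K := by
      rcases hF.cross G' hG' K hK with h | h | h | h
      · exact absurd (h hx) hxK
      · exact absurd (h hyK) hy'
      · exact h
      · exact absurd h hcov'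
    obtain ⟨a, b⟩ := hgood (Or.inl hKG)
    exact ⟨G', hmemG' (Or.inr hG'K), G, a, hsub, hx, hy, hy', b⟩
  · have hGK : K ⊆ G ∨ Disjoint G K := by
      rcases hF.cross G hG K hK with h | h | h | h
      · exact absurd (h hy) hyK
      · exact Or.inl h
      · exact Or.inr h
      · exact absurd h hcov
    obtain ⟨a, b⟩ := hgood hGK
    by_cases hxK : x ∈ K
    · have hKG : K ⊆ G := by
        rcases hGK with h | h
        · exact h
        · exact absurd hxK (Set.disjoint_left.1 h (hsub hx))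
      exact ⟨K, ⟨K, hK, (img_fix hσ (Or.inl subset_rfl)).symm⟩, G, a, hKG, hxK, hy, hyK, b⟩
    · have hG'K : K ⊆ G' ∨ Disjoint G' K := by
        rcases hF.cross G' hG' K hK with h | h | h | h
        · exact absurd (h hx) hxK
        · exact Or.inl h
        · exact Or.inr h
        · exact absurd h hcov'
      exact ⟨G', hmemG' hG'K, G, a, hsub, hx, hy, hy', b⟩

/-- Configurations with larger label `> j`. -/
theorem stepB (h4 : T_GI) (hm : m + 3 ≤ 2 * ℓ) (hF : CF F) (hK : K ∈ F)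
    (hg : Good ℓ F j K) (hσ : ∀ x, x ∉ K ∩ {x | x ≤ j} → σ x = x)
    {G' G : Set (Fin m)} {x y : Fin m} (hG' : G' ∈ F) (hG : G ∈ F) (hsub : G' ⊆ G)
    (hx : x ∈ G') (hy : y ∈ G) (hy' : y ∉ G') (hgx : Good ℓ F x G)
    (hyx : y < x) (hjx : j < x) :
    ∃ H' ∈ img σ F, ∃ H ∈ img σ F, H' ⊆ H ∧ x ∈ H' ∧ ∃ z ∈ H, z ∉ H' ∧ z < x ∧
      Good ℓ (img σ F) x H := by
  have hxC : x ∉ K ∩ {x | x ≤ j} := fun h => absurd hjx (not_lt.2 h.2)
  have hsx : σ x = x := hσ x hxC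
  refine ⟨σ '' G', ⟨G', hG', rfl⟩, σ '' G, ⟨G, hG, rfl⟩, Set.image_mono hsub,
    ⟨x, hx, hsx⟩, σ y, ⟨y, hy, rfl⟩, ?_, ?_,
    h4 m ℓ F j x K G σ hm hF hK hg hσ hG hgx⟩
  · rintro ⟨z, hz, hzy⟩
    rw [σ.injective hzy] at hz
    exact hy' hz
  · by_cases hyC : y ∈ K ∩ {x | x ≤ j}
    · exact lt_of_le_of_lt (mem_C hσ hyC).2 hjx
    · rw [hσ y hyC]
      exact hyx

theorem pf_STP (h1 : T_GMN) (h2 : T_GUN) (h3 : T_CFI) (h4 : T_GI) (h5 : T_TPI) (h6 : T_INA)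
    (h7 : T_INB) (h8 : T_EXC) : T_STP := by
  intro m ℓ F j K σ hm hF hT hcyc
  have hσ : ∀ x, x ∉ K ∩ {x | x ≤ j} → σ x = x := hcyc.fix
  have hσ' := symm_fix hσ
  have hT' : IsTop ℓ (img σ F) j K := h5 m ℓ F j K σ hm hF hT hσ
  obtain ⟨hCF', himg⟩ := h3 m F σ hF
  obtain ⟨hK, hjK, hgK, hmax⟩ := hT
  obtain ⟨hK', -, hgK', hmax'⟩ := hT'
  have hT : IsTop ℓ F j K := ⟨hK, hjK, hgK, hmax⟩
  have hT' : IsTop ℓ (img σ F) j K := ⟨hK', hjK, hgK', hmax'⟩
  have eA := h6 m ℓ F j K hm hF hT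
  have eB := h7 m ℓ (img σ F) j K hm hCF' hT'
  have eX := h8 m F j K σ hjK hcyc
  constructor
  · intro P
    have L : ∀ G' ∈ F, ∀ G ∈ F, G' ⊆ G → ∀ x ∈ G', ∀ y ∈ G, y ∉ G' → x ∈ K → y ∈ K → x < y →
        y ≤ j → ¬ Good ℓ F y G := by
      intro G' hG' G hG hs x hx y hy hy' _ _ hxy hyj
      exact (P G' hG' G hG hs x hx y hy hy').1 hxy (Nat.lt_succ_of_le hyj)
    have L' := eB.2 (eX.1 (eA.1 L))
    intro G' hG' G hG hs x hx y hy hy'
    constructor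
    · intro hxy hyj hgy
      by_cases hKK : x ∈ K ∧ y ∈ K
      · exact L'.1 G' hG' G hG hs x hx y hy hy' hKK.1 hKK.2 hxy hyj hgy
      · obtain ⟨H', hH', H, hH, q1, q2, q3, q4, q5⟩ :=
          step h2 h4 hm hCF' hK' hgK' hσ' hG' hG hs hx hy hy' hgy hKK
        rw [himg] at hH' hH q5
        exact (P H' hH' H hH q1 x q2 y q3 q4).1 hxy (Nat.lt_succ_of_lt hyj) q5
    · intro hyx hjx hgx
      rcases lt_or_eq_of_le hjx with h | h
      · obtain ⟨H', hH', H, hH, q1, q2, z, q3, q4, q5, q6⟩ :=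
          stepB h4 hm hCF' hK' hgK' hσ' hG' hG hs hx hy hy' hgx hyx h
        rw [himg] at hH' hH q6
        exact (P H' hH' H hH q1 x q2 z q3 q4).2 q5 (Nat.succ_le_of_lt h) q6
      · have hjx' : j = x := Fin.ext h
        subst hjx'
        have hGK : G ⊆ K := hmax' G hG (hs hx) hgx
        exact L'.2 G' hG' G hG hs y hy hy' hx (hGK hy) hyx hgx
  · intro P
    have L' : (∀ G' ∈ img σ F, ∀ G ∈ img σ F, G' ⊆ G → ∀ x ∈ G', ∀ y ∈ G, y ∉ G' → x ∈ K →
        y ∈ K → x < y → y < j → ¬ Good ℓ (img σ F) y G) ∧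
        (∀ G' ∈ img σ F, ∀ G ∈ img σ F, G' ⊆ G → ∀ y ∈ G, y ∉ G' → j ∈ G' → y ∈ K → y < j →
          ¬ Good ℓ (img σ F) j G) := by
      constructor
      · intro G' hG' G hG hs x hx y hy hy' _ _ hxy hyj
        exact (P G' hG' G hG hs x hx y hy hy').1 hxy hyj
      · intro G' hG' G hG hs y hy hy' hjG' _ hyj
        exact (P G' hG' G hG hs j hjG' y hy hy').2 hyj le_rfl
    have L := eA.2 (eX.2 (eB.1 L'))
    intro G' hG' G hG hs x hx y hy hy'
    constructor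
    · intro hxy hyj hgy
      have hyj' : y ≤ j := Nat.le_of_lt_succ hyj
      by_cases hKK : x ∈ K ∧ y ∈ K
      · exact L G' hG' G hG hs x hx y hy hy' hKK.1 hKK.2 hxy hyj' hgy
      · rcases lt_or_eq_of_le hyj' with h | h
        · obtain ⟨H', hH', H, hH, q1, q2, q3, q4, q5⟩ :=
            step h2 h4 hm hF hK hgK hσ hG' hG hs hx hy hy' hgy hKK
          exact (P H' hH' H hH q1 x q2 y q3 q4).1 hxy h q5
        · subst h
          have hGK : G ⊆ K := hmax G hG hy hgy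
          exact hKK ⟨hGK (hs hx), hjK⟩
    · intro hyx hjx hgx
      have h : j < x := Nat.lt_of_succ_le hjx
      obtain ⟨H', hH', H, hH, q1, q2, z, q3, q4, q5, q6⟩ :=
        stepB h4 hm hF hK hgK hσ hG' hG hs hx hy hy' hgx hyx h
      exact (P H' hH' H hH q1 x q2 z q3 q4).2 q5 (le_of_lt h) q6

end Pool.Agent.H4.WT
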